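import Pool.Agent.Y513.Curse.Fool
import Pool.Agent.Results.MP_562679_an.CurseLpBalls

/-!
# The curse of dimensionality for `C^∞` functions and local information on whole balls

An algorithm may choose `n` points adaptively, and every query at `x` reveals the restriction of
the integrand to the whole closed ball of radius `√d/(36Aκ)` around `x` (so in particular the
values of all derivatives at `x`). Nevertheless, for every probability measure `μ ≤ A^d vol` on
`ℝ^d` and all `n ≤ κ^d`, the worst case error for the integral with respect to `μ` over the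
`C^∞` functions that satisfy the bounds of the problem on all of `ℝ^d` is at least
`1/(2592 (Aκ)^2)`.
-/

set_option autoImplicit false

namespace Pool.Agent.Results.MP_562679_an.LocalInformation

open MeasureTheory Metric
open scoped ENNReal
open Pool.Agent.Results.MP_562679_an.CurseLpBalls (Curse lpBall complexity tildeC2 minErr)

/-- The `C^∞` functions on `ℝ^d` bounded by `1`, with Lipschitz constant at most `d^(-1/2)` and
all directional derivatives (unit directions) Lipschitz with constant `1/d`. -/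
def smoothClass (d : ℕ) : Set (EuclideanSpace ℝ (Fin d) → ℝ) :=
  {f | ContDiff ℝ (⊤ : ℕ∞) f ∧
    (∀ y, |f y| ≤ 1) ∧
    (∀ y z, |f y - f z| ≤ (Real.sqrt (d : ℝ))⁻¹ * dist y z) ∧
    (∀ θ : EuclideanSpace ℝ (Fin d), ‖θ‖ = 1 → ∀ y z,
      |fderiv ℝ f y θ - fderiv ℝ f z θ| ≤ ((d : ℝ))⁻¹ * dist y z)}

/-- Deterministic adaptive algorithms with `n` local observations of radius `r`: with `n = 0` just
an output; with `n + 1` observations a first point `x` of `ℝ^d` and, for every function on the
closed ball of radius `r` around `0` (the observed values `f (x + y)`, `‖y‖ ≤ r`), an algorithm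
with `n` further observations. -/
def LocalAlg (d : ℕ) (r : ℝ) : ℕ → Type
  | 0 => ℝ
  | n + 1 => EuclideanSpace ℝ (Fin d) ×
      ((closedBall (0 : EuclideanSpace ℝ (Fin d)) r → ℝ) → LocalAlg d r n)

/-- The output of an algorithm on an input function. -/
def runLocal {d : ℕ} {r : ℝ} (f : EuclideanSpace ℝ (Fin d) → ℝ) :
    (n : ℕ) → LocalAlg d r n → ℝ
  | 0, a => a
  | n + 1, a => runLocal f n (a.2 (fun y => f (a.1 + y)))

/-- Worst case error over the class for the integral with respect to `μ`. -/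
noncomputable def errLocal {d : ℕ} (μ : Measure (EuclideanSpace ℝ (Fin d))) {r : ℝ} (n : ℕ)
    (a : LocalAlg d r n) : ℝ≥0∞ :=
  ⨆ f ∈ smoothClass d, ENNReal.ofReal |(∫ y, f y ∂μ) - runLocal f n a|

/-- The minimal worst case error with `n` local observations of radius `r`. -/
noncomputable def minErrLocal {d : ℕ} (μ : Measure (EuclideanSpace ℝ (Fin d))) (r : ℝ) (n : ℕ) :
    ℝ≥0∞ :=
  ⨅ a : LocalAlg d r n, errLocal μ n a

/-- the points visited when all observed values are zero -/
def nodes {d : ℕ} {r : ℝ} : (n : ℕ) → LocalAlg d r n → Fin n → EuclideanSpace ℝ (Fin d)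
  | 0, _ => fun i => i.elim0
  | n + 1, a => Fin.cons a.1 (nodes n (a.2 (fun _ => 0)))

lemma run_eq {d : ℕ} {r : ℝ} (n : ℕ) (a : LocalAlg d r n)
    (f : EuclideanSpace ℝ (Fin d) → ℝ)
    (hf : ∀ i, ∀ y ∈ closedBall (nodes n a i) r, f y = 0) :
    runLocal f n a = runLocal (fun _ => 0) n a := by
  induction n with
  | zero => rfl
  | succ n ih =>
    have h0 : (fun y : closedBall (0 : EuclideanSpace ℝ (Fin d)) r => f (a.1 + y))
        = fun _ => 0 := by
      funext y
      apply hf 0
      have hy := y.2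
      rw [mem_closedBall, dist_zero_right] at hy
      have h1 : nodes (n + 1) a 0 = a.1 := rfl
      rw [h1, mem_closedBall, dist_eq_norm]
      simpa using hy
    have h1 : runLocal f (n + 1) a = runLocal f n (a.2 (fun _ => 0)) := by
      show runLocal f n (a.2 (fun y => f (a.1 + y))) = _
      rw [h0]
    have h2 : runLocal (fun _ => (0 : ℝ)) (n + 1) a
        = runLocal (fun _ => (0 : ℝ)) n (a.2 (fun _ => 0)) := rfl
    rw [h1, h2]
    apply ih
    intro i
    exact hf i.succ

lemma neg_mem {d : ℕ} {f : EuclideanSpace ℝ (Fin d) → ℝ} (hf : f ∈ smoothClass d) :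
    (fun y => - f y) ∈ smoothClass d := by
  obtain ⟨h1, h2, h3, h4⟩ := hf
  refine ⟨h1.neg, ?_, ?_, ?_⟩
  · intro y
    simpa using h2 y
  · intro y z
    have := h3 y z
    rw [abs_sub_comm] at this
    have e : - f y - - f z = f z - f y := by ring
    rw [e]; exact this
  · intro θ hθ y z
    have := h4 θ hθ y z
    rw [abs_sub_comm] at this
    have e1 : fderiv ℝ (fun y => - f y) y = - fderiv ℝ f y := fderiv_fun_neg
    have e2 : fderiv ℝ (fun y => - f y) z = - fderiv ℝ f z := fderiv_fun_neg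
    rw [e1, e2]
    have e : (-fderiv ℝ f y) θ - (-fderiv ℝ f z) θ = fderiv ℝ f z θ - fderiv ℝ f y θ := by
      simp only [neg_apply]
      ring
    rw [e]; exact this

/-- a fooling function gives a lower bound for the error -/
lemma err_ge {d : ℕ} {r : ℝ} (μ : Measure (EuclideanSpace ℝ (Fin d))) (n : ℕ)
    (a : LocalAlg d r n) {f : EuclideanSpace ℝ (Fin d) → ℝ} (hf : f ∈ smoothClass d)
    (hz : ∀ i, ∀ y ∈ closedBall (nodes n a i) r, f y = 0) {c : ℝ} (hc : c ≤ ∫ y, f y ∂μ) :
    ENNReal.ofReal c ≤ errLocal μ n a := by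
  have h1 : ENNReal.ofReal |(∫ y, f y ∂μ) - runLocal f n a| ≤ errLocal μ n a :=
    le_iSup₂ (f := fun f (_ : f ∈ smoothClass d) =>
      ENNReal.ofReal |(∫ y, f y ∂μ) - runLocal f n a|) f hf
  have h2 : ENNReal.ofReal |(∫ y, (- f y) ∂μ) - runLocal (fun y => - f y) n a|
      ≤ errLocal μ n a :=
    le_iSup₂ (f := fun f (_ : f ∈ smoothClass d) =>
      ENNReal.ofReal |(∫ y, f y ∂μ) - runLocal f n a|) (fun y => - f y) (neg_mem hf)
  have e1 : runLocal f n a = runLocal (fun _ => 0) n a := run_eq n a f hz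
  have e2 : runLocal (fun y => - f y) n a = runLocal (fun _ => 0) n a :=
    run_eq n a _ (fun i y hy => by simp [hz i y hy])
  rw [e1] at h1
  rw [e2, integral_neg] at h2
  set s := runLocal (fun _ => (0 : ℝ)) n a
  set I := ∫ y, f y ∂μ
  rcases le_total s 0 with hs | hs
  · refine le_trans (ENNReal.ofReal_le_ofReal ?_) h1
    have : I - s ≤ |I - s| := le_abs_self _
    linarith
  · refine le_trans (ENNReal.ofReal_le_ofReal ?_) h2
    have : -(-I - s) ≤ |-I - s| := neg_le_abs _
    linarith

/-- **Main result.** -/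
theorem result :
    (∀ (d : ℕ) (A κ : ℝ), 1 ≤ d → 1 ≤ A → 1 ≤ κ →
      ∀ μ : Measure (EuclideanSpace ℝ (Fin d)), IsProbabilityMeasure μ →
        μ ≤ ENNReal.ofReal (A ^ d) • volume → ∀ n : ℕ, (n : ℝ) ≤ κ ^ d →
          ENNReal.ofReal (1 / (2592 * (A * κ) ^ 2)) ≤
            minErrLocal μ (Real.sqrt d / (36 * (A * κ))) n) ∧
    (∀ (d : ℕ) (D : Set (EuclideanSpace ℝ (Fin d))), 1 ≤ d → IsOpen D → volume D = 1 →
      ∀ ε : ℝ, 0 < ε → ε < 1 / 2592 →
        ENNReal.ofReal ((1 / (2592 * ε)) ^ ((d : ℝ) / 2)) ≤ complexity D ε) ∧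
    (∀ p : ℝ, 0 < p → Curse (fun d => lpBall p d)) := by
  refine ⟨?_, ?_, ?_⟩
  · intro d A κ hd hA hκ μ hμp hμ n hn
    apply le_iInf
    intro a
    obtain ⟨f, hC, h0, h1, hLip, hder, hzero, hint⟩ :=
      Pool.Agent.Y513.Curse.exists_fooling_local hd hA hκ μ hμ hn (nodes n a)
    apply err_ge μ n a (f := f) _ hzero hint
    refine ⟨hC, ?_, hLip, hder⟩
    intro y
    rw [abs_of_nonneg (h0 y)]
    exact h1 y
  · intro d D hd hD hvol ε hε hε1
    have hdpos : (0 : ℝ) < d := by exact_mod_cast hd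
    apply le_iInf₂
    intro n hn
    have h1 := (CurseLpBalls.minErr_ge hd hD hvol n).trans hn
    have h2 := (ENNReal.ofReal_le_ofReal_iff hε.le).mp h1
    set m : ℕ := max n 1 with hm
    have hmpos : (0 : ℝ) < m := by
      have : 1 ≤ m := le_max_right _ _
      exact_mod_cast this
    have hA : 1 < 1 / (2592 * ε) := by
      rw [lt_div_iff₀ (by positivity)]
      linarith
    have h3 : (1 / (2592 * ε)) ≤ (m : ℝ) ^ ((2 : ℝ) / (d : ℝ)) := by
      have h4 : (m : ℝ) ^ (-(2 : ℝ) / (d : ℝ)) = ((m : ℝ) ^ ((2 : ℝ) / (d : ℝ)))⁻¹ := by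
        rw [neg_div, Real.rpow_neg hmpos.le]
      rw [h4] at h2
      have h5 : 0 < (m : ℝ) ^ ((2 : ℝ) / (d : ℝ)) := by positivity
      rw [div_le_iff₀ (by positivity)]
      rw [mul_inv_le_iff₀ h5] at h2
      linarith
    have h4 : (1 / (2592 * ε)) ^ ((d : ℝ) / 2) ≤ m := by
      have h5 := Real.rpow_le_rpow (by positivity) h3 (by positivity : (0 : ℝ) ≤ (d : ℝ) / 2)
      rw [← Real.rpow_mul hmpos.le] at h5
      have h6 : (2 : ℝ) / (d : ℝ) * ((d : ℝ) / 2) = 1 := by field_simp
      rwa [h6, Real.rpow_one] at h5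
    have h8 : m = n := by
      rcases Nat.eq_zero_or_pos n with h0 | h0
      · exfalso
        have h9 : m = 1 := by rw [hm, h0]; rfl
        rw [h9] at h4
        have h10 : 1 < (1 / (2592 * ε)) ^ ((d : ℝ) / 2) :=
          Real.one_lt_rpow hA (by positivity)
        norm_num at h4
        norm_num at h10
        linarith
      · exact max_eq_left h0
    rw [h8] at h4
    have h9 := ENNReal.ofReal_le_ofReal h4
    rwa [ENNReal.ofReal_natCast] at h9
  · intro p hp
    exact CurseLpBalls.curse_of_volume_one _ (fun d _ => CurseLpBalls.isOpen_lpBall hp d)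
      (fun _ hd => CurseLpBalls.volume_lpBall hp hd)

end Pool.Agent.Results.MP_562679_an.LocalInformation
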